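import Pool.Agent.H24.RCN.Targets

/-!
# HB0: the index of `n D` in a free abelian group `D`
-/

set_option autoImplicit false

open NumberField Pool.Agent.H24.RCN

namespace Pool.Agent.H1.RCN

theorem pf_HB0 : T_HB0 := by
  classical
  intro D _ _ _ n hn
  haveI : NeZero n := ⟨by omega⟩
  let b := Module.finBasis ℤ D
  let r : Fin (Module.finrank ℤ D) → (D →ₗ[ℤ] ZMod n) := fun i =>
    ((Int.castAddHom (ZMod n)).toIntLinearMap).comp (b.coord i)
  let f : D →ₗ[ℤ] (Fin (Module.finrank ℤ D) → ZMod n) := LinearMap.pi r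
  have hf : ∀ x i, f x i = ((b.repr x i : ℤ) : ZMod n) := fun x i => rfl
  have hsurj : Function.Surjective f := by
    intro y
    choose z hz using fun i => ZMod.intCast_surjective (y i)
    refine ⟨∑ i, z i • b i, ?_⟩
    funext i
    rw [hf, b.repr_sum_self, hz]
  have hker : LinearMap.ker f = LinearMap.range ((n : ℤ) • (1 : Module.End ℤ D)) := by
    ext x
    rw [LinearMap.mem_ker, LinearMap.mem_range]
    constructor
    · intro h
      have h1 : ∀ i, (n : ℤ) ∣ b.repr x i := by
        intro i
        rw [← ZMod.intCast_zmod_eq_zero_iff_dvd, ← hf, h]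
        rfl
      choose c hc using h1
      refine ⟨∑ i, c i • b i, ?_⟩
      have h2 : ((n : ℤ) • (1 : Module.End ℤ D)) (∑ i, c i • b i) = ∑ i, (b.repr x i) • b i := by
        rw [LinearMap.smul_apply, Module.End.one_apply, Finset.smul_sum]
        refine Finset.sum_congr rfl fun i _ => ?_
        rw [smul_smul, ← hc]
      rw [h2, b.sum_repr]
    · rintro ⟨y, rfl⟩
      funext i
      rw [hf, LinearMap.smul_apply, Module.End.one_apply, map_smul, Finsupp.smul_apply,
        smul_eq_mul, Int.cast_mul, Int.cast_natCast, ZMod.natCast_self, zero_mul]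
      rfl
  rw [← hker]
  have e := f.quotKerEquivOfSurjective hsurj
  refine ⟨Finite.of_equiv _ e.symm.toEquiv, ?_⟩
  rw [Nat.card_congr e.toEquiv, Nat.card_eq_fintype_card, Fintype.card_fun, ZMod.card,
    Fintype.card_fin]

end Pool.Agent.H1.RCN
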