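import Pool.Agent.H24.RCN.Targets

/-!
# HB1: the rank of a free abelian group with a contracting endomorphism
-/

set_option autoImplicit false

open NumberField Pool.Agent.H24.RCN

namespace Pool.Agent.H1.RCN

theorem card_quot_eq {D : Type} [AddCommGroup D] (p : Submodule ℤ D) :
    Nat.card (D ⧸ p) = p.toAddSubgroup.index := rfl

theorem index_pow {D : Type} [AddCommGroup D] (g : Module.End ℤ D) (C : ℕ)
    (h0 : (LinearMap.range g).toAddSubgroup.index ≠ 0)
    (hC : (LinearMap.range g).toAddSubgroup.index ≤ C) (i : ℕ) :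
    (LinearMap.range (g ^ i)).toAddSubgroup.index ≠ 0 ∧
      (LinearMap.range (g ^ i)).toAddSubgroup.index ≤ C ^ i := by
  induction i with
  | zero =>
    have h1 : (LinearMap.range (g ^ 0)).toAddSubgroup = ⊤ := by
      rw [pow_zero]
      ext x
      constructor
      · intro _
        trivial
      · intro _
        exact ⟨x, rfl⟩
    rw [h1, AddSubgroup.index_top]
    simp
  | succ i ih =>
    have h1 : (LinearMap.range (g ^ (i + 1))).toAddSubgroup =
        ((LinearMap.range (g ^ i)).toAddSubgroup).map g.toAddMonoidHom := by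
      ext x
      constructor
      · rintro ⟨y, rfl⟩
        refine ⟨(g ^ i) y, ⟨y, rfl⟩, ?_⟩
        rw [pow_succ']
        rfl
      · rintro ⟨_, ⟨y, rfl⟩, rfl⟩
        refine ⟨y, ?_⟩
        rw [pow_succ']
        rfl
    have h2 : g.toAddMonoidHom.range = (LinearMap.range g).toAddSubgroup := by
      ext x
      rfl
    rw [h1, AddSubgroup.index_map, h2]
    have h3 := AddSubgroup.index_dvd_of_le
      (le_sup_left : (LinearMap.range (g ^ i)).toAddSubgroup ≤
        (LinearMap.range (g ^ i)).toAddSubgroup ⊔ g.toAddMonoidHom.ker)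
    refine ⟨mul_ne_zero (fun h => ih.1 (Nat.eq_zero_of_zero_dvd (h ▸ h3))) h0, ?_⟩
    rw [pow_succ]
    exact Nat.mul_le_mul ((Nat.le_of_dvd (Nat.pos_of_ne_zero ih.1) h3).trans ih.2) hC

theorem pf_HB1 (h0 : T_HB0) : T_HB1 := by
  intro D _ _ _ g κ m c hκ hg hfin hcard
  haveI := hfin
  have h1 : (LinearMap.range g).toAddSubgroup.index ≠ 0 := by
    rw [← card_quot_eq]
    exact Nat.card_pos.ne'
  rw [card_quot_eq] at hcard
  obtain ⟨h2, h3⟩ := index_pow g (κ ^ c) h1 hcard m
  have h4 := (h0 D κ hκ.pos).2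
  rw [card_quot_eq] at h4
  have h5 : (LinearMap.range (g ^ m)).toAddSubgroup ≤
      (LinearMap.range ((κ : ℤ) • (1 : Module.End ℤ D))).toAddSubgroup := by
    rintro x ⟨y, rfl⟩
    obtain ⟨z, hz⟩ := hg y
    exact ⟨z, hz.symm⟩
  have h6 := Nat.le_of_dvd (Nat.pos_of_ne_zero h2) (AddSubgroup.index_dvd_of_le h5)
  rw [h4] at h6
  have h7 : κ ^ Module.finrank ℤ D ≤ κ ^ (c * m) := by
    rw [pow_mul]
    exact h6.trans h3
  have h8 := (Nat.pow_le_pow_iff_right hκ.one_lt).1 h7
  rw [mul_comm]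
  exact h8

end Pool.Agent.H1.RCN
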