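import Pool.Agent.H24.RCN.Targets

/-!
# RM2: the powers of the generator permute the primes over a prime
-/

set_option autoImplicit false

open NumberField Pool.Agent.H24.RCN

namespace Pool.Agent.H1.RCN

theorem pf_RM2 : T_RM2 := by
  classical
  intro F L _ _ _ _ _ κ σ J _ hE Q Q' hQ _ hQ' _ hQQ
  haveI := hE.gal
  haveI := hQ
  haveI := hQ'
  have h1 : Q' ∈ Ideal.primesOver (Ideal.comap (algebraMap (𝓞 F) (𝓞 L)) Q') (𝓞 L) :=
    ⟨hQ', ⟨rfl⟩⟩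
  have h2 : Q ∈ Ideal.primesOver (Ideal.comap (algebraMap (𝓞 F) (𝓞 L)) Q') (𝓞 L) :=
    ⟨hQ, ⟨hQQ.symm⟩⟩
  obtain ⟨τ, hτ⟩ := Ideal.exists_comap_galRestrict_eq (𝓞 F) F L (𝓞 L) h1 h2
  obtain ⟨i, hi⟩ := (mem_powers_iff_mem_zpowers (x := σ)).2 (hE.gen τ)
  refine ⟨i, fun x y hxy => ?_⟩
  have h3 : y = galRestrict (𝓞 F) F L (𝓞 L) τ x := by
    apply RingOfIntegers.ext
    rw [hxy]
    have h4 := algebraMap_galRestrict_apply (𝓞 F) τ x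
    refine Eq.trans ?_ h4.symm
    rw [← hi]
  rw [h3, ← hτ]
  exact Iff.rfl

end Pool.Agent.H1.RCN
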